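import Pool.Agent.X77.KL.Mul
import Pool.Agent.TH945.KQ.FNOM
import Pool.Agent.TH296.KQ.Main

/-!
# Connected sums with many copies of one knot
-/

set_option autoImplicit false

namespace X77.KL

open Finset Filter Topology KN KN.KQ
open scoped Classical

/-- the main inequality; the constants depend only on the knot `k` -/
theorem core (k : List V) (hk : ∃ w, SAP w ∧ Same (vl w) k) :
    ∃ (c ε C : ℝ) (b n0 : ℕ), 0 < c ∧ 0 < ε ∧ 0 < C ∧ b % 2 = 0 ∧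
      ∀ 𝒬 : List V → Prop, TC 𝒬 → ∀ M : ℕ,
        (∀ l, 𝒬 l → ¬ SumsC (fun _ => True) (fun _ => k) M l) →
        ∀ n N : ℕ, n0 * (M + 1) ≤ n → (N : ℝ) ≤ ε * (n : ℝ) ^ (2 / 3 : ℝ) →
          (c * (n : ℝ) ^ (2 / 3 : ℝ)) ^ N * a (fun w => 𝒬 (vl w)) n ≤
            (C * ((N : ℝ) + M)) ^ N *
              a (fun w => SumsC 𝒬 (fun _ => k) N (vl w)) (n + b * N) := by
  obtain ⟨L, v0, hv0, hvk⟩ := T_vex_proof k hk
  obtain ⟨R, hR, hLR⟩ := d_LL (2 * L + 4) L le_rfl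
  set T := 2 * L + 4 with hT
  set B := (blk 0 v0).length with hB
  have hv : SmB L B (fun _ => v0) := fun i => ⟨hv0, le_rfl⟩
  obtain ⟨c, ε, n1, hc, hε, h⟩ := cnt_many hv hLR hR
  set D := B + 2 * T with hD
  have hD1 : 1 ≤ D := (K3YMUL.blk_pos T v0).trans (K3YMUL.blk_le hv T 0)
  set b : ℕ := (blk T v0).length - 1 with hb
  refine ⟨c, ε, 2 * D * 36, b, n1 + D + 3, hc, hε, by positivity, ?_, ?_⟩
  · have hlen : (blk T v0).length = 2 * (T + 1) + v0.length := by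
      unfold blk
      simp only [List.length_append, List.length_replicate]
      omega
    have hodd : (v0.length + 1) % 2 = 0 := by
      have h2 := even_of_closed (hv0.1.2.1)
      simpa using h2
    omega
  intro 𝒬 hQ M hM n N hn hN
  have hn1 : n1 ≤ n := by nlinarith
  have hn2 : M * D + 3 ≤ n := by nlinarith
  have h1 := h 𝒬 hQ n N hn1 hN
  have hno : NoM 𝒬 (fun _ => k) N M := fun σ hσ l hl => hM l hl
  have hmul := mul_bound (𝒬 := 𝒬) hno hv (fun _ => hvk) hn2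
  have h4 : (VZ 𝒬 T L (fun _ => v0) N n).card ≤
      ((N + M) * (2 * D) * 36) ^ N * a (fun w => SumsC 𝒬 (fun _ => k) N (vl w)) (n + b * N) := by
    have h5 : (VZ 𝒬 T L (fun _ => v0) N n).card ≤ ((N + M) * (2 * D) * 36) ^ N *
        ((VZ 𝒬 T L (fun _ => v0) N n).image (EZ T (fun _ => v0))).card := by
      apply Finset.card_le_mul_card_image
      intro w _
      exact hmul w
    refine h5.trans (Nat.mul_le_mul_left _ ?_)
    unfold a
    apply Finset.card_le_card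
    intro w hw
    obtain ⟨W, hW, rfl⟩ := Finset.mem_image.1 hw
    obtain ⟨hW1, hW2, hW3⟩ := (q_mem T L (fun _ => v0) N n W).1 hW
    rw [mem_K]
    refine ⟨?_, hW3.ext, ?_⟩
    · rw [(e_bas T L B (fun _ => v0) hv W).2.2.1, hW1, (hW2.map _).sum_eq]
      simp [hb, mul_comm]
    · exact q_type hQ (fun _ => k) T L B (fun _ => v0) hv N (fun i _ => hvk) W hW2 hW3
  refine h1.trans ?_
  have h6 : ((VZ 𝒬 T L (fun _ => v0) N n).card : ℝ) ≤
      (((N + M) * (2 * D) * 36 : ℕ) : ℝ) ^ N *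
        a (fun w => SumsC 𝒬 (fun _ => k) N (vl w)) (n + b * N) := by
    exact_mod_cast h4
  refine h6.trans (le_of_eq ?_)
  push_cast
  congr 2
  ring

/-- the knots of the class `Q` -/
def KC (Q : List Dir → Prop) (l : List V) : Prop := ∃ w, SAP w ∧ Q w ∧ Same (vl w) l

theorem kc_TC (Q : List Dir → Prop) : TC (KC Q) :=
  fun _ _ h ⟨w, hw, hq, hs⟩ => ⟨w, hw, hq, hs.trans h⟩

theorem kc_iff {Q : List Dir → Prop} (hQ : KClass Q) {w : List Dir} (hw : SAP w) :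
    KC Q (vl w) ↔ Q w :=
  ⟨fun ⟨w', hw', hq, hs⟩ => hQ.same w' w hw' hw hs hq, fun h => ⟨w, hw, h, Same.refl _⟩⟩

theorem sums_closed {Q : List Dir → Prop} (hQ : KClass Q) (hc : CSum Q) {k : List V}
    (hk : KC Q k) : ∀ (N : ℕ) (l : List V), SumsC (KC Q) (fun _ => k) N l → KC Q l := by
  intro N
  induction N with
  | zero => intro l h; exact h
  | succ N ih =>
    rintro l ⟨l1, v, l2, hF, ht, hs, hj⟩
    have h1 : Q (l1 ++ .zp :: l2) := (kc_iff hQ hF.1).1 (ih _ ht)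
    have h2 : Q (.zm :: v) := by
      obtain ⟨w', hw', hq, hs'⟩ := hk
      exact hQ.same w' _ hw' hF.2.2.1 (hs'.trans hs.symm) hq
    exact ⟨join l1 v l2, S_glueSAP_proof l1 v l2 hF, hc l1 v l2 hF h1 h2, hj.symm⟩

theorem sums_mono {𝒬 𝒬' : List V → Prop} (h : ∀ l, 𝒬 l → 𝒬' l) (ks : ℕ → List V) :
    ∀ (N : ℕ) (l : List V), SumsC 𝒬 ks N l → SumsC 𝒬' ks N l := by
  intro N
  induction N with
  | zero => intro l hl; exact h l hl
  | succ N ih =>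
    rintro l ⟨l1, v, l2, hF, ht, hs, hj⟩
    exact ⟨l1, v, l2, hF, ih _ ht, hs, hj⟩

/-- the upper bound for closed classes, in a weak form -/
theorem upper {Q : List Dir → Prop} (hQ : KClass Q) (hc : CSum Q) (hne : ∃ w, SAP w ∧ Q w) :
    ∃ C : ℝ, 0 < C ∧ ∀ n : ℕ, 1 ≤ n → (a Q n : ℝ) ≤ C * n * gr Q ^ n := by
  obtain ⟨⟨C, hC⟩, -, -⟩ := class_all hQ hc hne
  have hg := (gr_bounds Q hQ hne).1
  refine ⟨2 * (|C| + 1), by positivity, fun n hn => ?_⟩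
  have h1 := hC n hn
  have hn0 : (0 : ℝ) < n := by exact_mod_cast hn
  have hn1 : (1 : ℝ) ≤ n := by exact_mod_cast hn
  unfold pq at h1
  rw [div_le_iff₀ (by positivity)] at h1
  refine h1.trans ?_
  have h2 : (n : ℝ) ^ (-(2 / 3) : ℝ) ≤ 1 := Real.rpow_le_one_of_one_le_of_nonpos hn1 (by norm_num)
  have h3 : 0 < (n : ℝ) ^ (-(2 / 3) : ℝ) := Real.rpow_pos_of_pos hn0 _
  have h4 : C * (n : ℝ) ^ (-(2 / 3) : ℝ) ≤ |C| + 1 := by
    have h5 : C * (n : ℝ) ^ (-(2 / 3) : ℝ) ≤ |C| * (n : ℝ) ^ (-(2 / 3) : ℝ) :=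
      mul_le_mul_of_nonneg_right (le_abs_self C) h3.le
    have h6 : |C| * (n : ℝ) ^ (-(2 / 3) : ℝ) ≤ |C| * 1 :=
      mul_le_mul_of_nonneg_left h2 (abs_nonneg C)
    linarith
  have hgn : 0 < gr Q ^ n := pow_pos (by linarith) n
  calc C * (n : ℝ) ^ (-(2 / 3) : ℝ) * gr Q ^ n * (2 * n)
      ≤ (|C| + 1) * gr Q ^ n * (2 * n) := by
        refine mul_le_mul_of_nonneg_right (mul_le_mul_of_nonneg_right h4 hgn.le) (by positivity)
    _ = 2 * (|C| + 1) * n * gr Q ^ n := by ring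

/-- `C n ≤ exp (ε n ^ (2 / 3))` for large `n` -/
theorem exp_beats (C ε : ℝ) (hε : 0 < ε) : ∀ᶠ n : ℕ in atTop,
    C * n ≤ Real.exp (ε * (n : ℝ) ^ (2 / 3 : ℝ)) := by
  have ht : Tendsto (fun n : ℕ => (n : ℝ) ^ (1 / 3 : ℝ)) atTop atTop :=
    (tendsto_rpow_atTop (by norm_num)).comp tendsto_natCast_atTop_atTop
  filter_upwards [ht.eventually_ge_atTop (2 * C / ε ^ 2), eventually_gt_atTop 0] with n h1 h2
  have hn0 : (0 : ℝ) < n := by exact_mod_cast h2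
  have h3 := Real.quadratic_le_exp_of_nonneg
    (show 0 ≤ ε * (n : ℝ) ^ (2 / 3 : ℝ) by positivity)
  refine le_trans ?_ h3
  have h4 : ((n : ℝ) ^ (2 / 3 : ℝ)) ^ 2 = n * (n : ℝ) ^ (1 / 3 : ℝ) := by
    rw [← Real.rpow_natCast, ← Real.rpow_mul hn0.le]
    have : (n : ℝ) * (n : ℝ) ^ (1 / 3 : ℝ) = (n : ℝ) ^ (1 : ℝ) * (n : ℝ) ^ (1 / 3 : ℝ) := by
      rw [Real.rpow_one]
    rw [this, ← Real.rpow_add hn0]
    norm_num
  have h5 : (ε * (n : ℝ) ^ (2 / 3 : ℝ)) ^ 2 / 2 = (ε ^ 2 / 2 * (n : ℝ) ^ (1 / 3 : ℝ)) * n := by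
    rw [mul_pow, h4]; ring
  have h6 : C ≤ ε ^ 2 / 2 * (n : ℝ) ^ (1 / 3 : ℝ) := by
    rw [div_le_iff₀ (by positivity)] at h1
    linarith
  have h7 : C * n ≤ (ε * (n : ℝ) ^ (2 / 3 : ℝ)) ^ 2 / 2 := by
    rw [h5]
    exact mul_le_mul_of_nonneg_right h6 hn0.le
  have h8 : 0 ≤ ε * (n : ℝ) ^ (2 / 3 : ℝ) := by positivity
  linarith

end X77.KL
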