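import Pool.Agent.X77.KL.Low

/-!
# The asymptotic form for one knot type implies a strict inequality
-/

set_option autoImplicit false

namespace X77.KL

open Finset Filter Topology KN KN.KQ
open scoped Classical

theorem exp_le_rpow {A ε : ℝ} (hA : 0 < A) (hε : 0 < ε) (s : ℝ) : ∀ᶠ n : ℕ in atTop,
    Real.exp (-(ε * (n : ℝ) ^ (2 / 3 : ℝ))) ≤ A * (n : ℝ) ^ s := by
  have ht : Tendsto (fun n : ℕ => (n : ℝ) ^ (2 / 3 : ℝ)) atTop atTop :=
    (tendsto_rpow_atTop (by norm_num)).comp tendsto_natCast_atTop_atTop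
  have h1 := ((isLittleO_rpow_exp_pos_mul_atTop (-s * (3 / 2)) hε).comp_tendsto ht).def hA
  filter_upwards [h1, eventually_gt_atTop 0] with n h2 h3
  have hn0 : (0 : ℝ) < n := by exact_mod_cast h3
  simp only [Function.comp, Real.norm_eq_abs] at h2
  rw [← Real.rpow_mul hn0.le, abs_of_pos (Real.rpow_pos_of_pos hn0 _),
    abs_of_pos (Real.exp_pos _)] at h2
  have e : (2 / 3 : ℝ) * (-s * (3 / 2)) = -s := by ring
  rw [e, Real.rpow_neg hn0.le] at h2
  have h4 : 0 < (n : ℝ) ^ s := Real.rpow_pos_of_pos hn0 _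
  rw [Real.exp_neg]
  have h5 : 0 < Real.exp (ε * (n : ℝ) ^ (2 / 3 : ℝ)) := Real.exp_pos _
  rw [inv_le_iff_one_le_mul₀ h4] at h2
  rw [inv_le_iff_one_le_mul₀ h5]
  calc (1 : ℝ) ≤ A * Real.exp (ε * (n : ℝ) ^ (2 / 3 : ℝ)) * (n : ℝ) ^ s := h2
    _ = _ := by ring

/-- from the asymptotic form to the weak lower bound -/
theorem weak_of_form {k : List V} (hg : 0 < gr (KT k)) {A α : ℝ} (hA : 0 < A)
    (h : Tendsto (fun j : ℕ => pq (KT k) (2 * j) / ((2 * j : ℝ) ^ (α - 3) * gr (KT k) ^ (2 * j)))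
      atTop (𝓝 A)) (ε : ℝ) (hε : 0 < ε) : ∃ᶠ n : ℕ in atTop,
      Real.exp (-(ε * (n : ℝ) ^ (2 / 3 : ℝ))) * gr (KT k) ^ n ≤ pq (KT k) n := by
  have h1 := h.eventually (lt_mem_nhds (show A / 2 < A by linarith))
  have h2 := exp_le_rpow (show 0 < A / 2 by linarith) hε (α - 3)
  have ht : Tendsto (fun j : ℕ => 2 * j) atTop atTop :=
    tendsto_atTop_mono (fun j => by simp only [id]; omega) tendsto_id
  have h3 := ht.eventually h2
  refine ht.frequently (Eventually.frequently ?_)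
  filter_upwards [h1, h3, eventually_gt_atTop 0] with j h4 h5 h6
  have hj : (0 : ℝ) < 2 * j := by
    have : (0 : ℝ) < j := by exact_mod_cast h6
    linarith
  have h7 : 0 < (2 * j : ℝ) ^ (α - 3) * gr (KT k) ^ (2 * j) := by positivity
  rw [lt_div_iff₀ h7] at h4
  refine le_trans ?_ h4.le
  push_cast at h5 ⊢
  calc Real.exp (-(ε * (2 * j : ℝ) ^ (2 / 3 : ℝ))) * gr (KT k) ^ (2 * j)
      ≤ (A / 2 * (2 * j : ℝ) ^ (α - 3)) * gr (KT k) ^ (2 * j) :=
        mul_le_mul_of_nonneg_right h5 (by positivity)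
    _ = _ := by ring

end X77.KL
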