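import Pool.Agent.X77.KL.Str

/-!
# The number of polygons whose type is a connected sum with many copies of one knot
-/

set_option autoImplicit false

namespace X77.KL

open Finset Filter Topology KN KN.KQ
open scoped Classical

/-- many copies of `L`: a lower bound that is uniform in the number of copies -/
theorem low {w₀ wL : List Dir} (h₀ : SAP w₀) (hL : SAP wL) (hF : FNAG (vl wL)) :
    ∃ (c : ℝ) (b n0 : ℕ), 0 < c ∧ b % 2 = 0 ∧ ∀ n N : ℕ, n0 ≤ n →
      (N : ℝ) ≤ c * (n : ℝ) ^ (2 / 3 : ℝ) → ∀ l : List V,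
      SumsC (Ty (vl w₀)) (fun _ => vl wL) N l →
      c * (c * (n : ℝ) ^ (2 / 3 : ℝ) / (N + 1)) ^ N * pq (KT (vl w₀)) n ≤
        pq (KT l) (n + b * N) := by
  obtain ⟨c, ε, C, b, n1, hc, hε, hC, hb, h⟩ := core (vl wL) ⟨wL, hL, Same.refl _⟩
  obtain ⟨M, hM⟩ := noM_finite h₀ (fun _ => vl wL) 1 (fun _ _ => hF)
  set c₁ : ℝ := min (min ε 1) (min (c / (C * (M + 1))) (1 / (2 * (1 + b)))) with hc₁
  have hc10 : 0 < c₁ := by
    rw [hc₁]
    refine lt_min (lt_min hε one_pos) (lt_min ?_ ?_) <;> positivity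
  have e1 : c₁ ≤ ε := (min_le_left _ _).trans (min_le_left _ _)
  have e2 : c₁ ≤ 1 := (min_le_left _ _).trans (min_le_right _ _)
  have e3 : c₁ ≤ c / (C * (M + 1)) := (min_le_right _ _).trans (min_le_left _ _)
  have e4 : c₁ ≤ 1 / (2 * (1 + b)) := (min_le_right _ _).trans (min_le_right _ _)
  refine ⟨c₁, b, n1 * (M + 1) + 1, hc10, hb, fun n N hn hN l hl => ?_⟩
  have hn1R : (1 : ℝ) ≤ n := by exact_mod_cast (show 1 ≤ n by omega)
  have hn0 : (0 : ℝ) < n := by linarith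
  set x : ℝ := (n : ℝ) ^ (2 / 3 : ℝ) with hx
  have hx1 : 1 ≤ x := Real.one_le_rpow hn1R (by norm_num)
  have hx0 : 0 < x := by linarith
  have hNε : (N : ℝ) ≤ ε * x := hN.trans (mul_le_mul_of_nonneg_right e1 hx0.le)
  have h1 := h (Ty (vl w₀)) (Ty_TC _) M (fun l hl => hM (fun _ => 0) (fun _ _ => one_pos) l hl) n N
    (by omega) hNε
  have hxn : x ≤ n := by
    calc x ≤ (n : ℝ) ^ (1 : ℝ) := Real.rpow_le_rpow_of_exponent_le hn1R (by norm_num)
      _ = n := Real.rpow_one _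
  have hNn : (N : ℝ) ≤ n := by
    refine hN.trans ?_
    nlinarith
  -- compare the classes
  have h2 : (a (fun w => SumsC (Ty (vl w₀)) (fun _ => vl wL) N (vl w)) (n + b * N) : ℝ) ≤
      a (KT l) (n + b * N) := by
    have : a (fun w => SumsC (Ty (vl w₀)) (fun _ => vl wL) N (vl w)) (n + b * N) ≤
        a (KT l) (n + b * N) := by
      unfold a
      apply Finset.card_le_card
      intro w hw
      rw [mem_K] at hw ⊢
      exact ⟨hw.1, hw.2.1, Or.inl (sums_unique _ _ N _ _ hw.2.2 hl)⟩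
    exact_mod_cast this
  have h3 : (a (KT (vl w₀)) n : ℝ) ≤ 2 * a (fun w => Ty (vl w₀) (vl w)) n := by
    exact_mod_cast a_le_two (vl w₀) n
  set A : ℝ := (a (fun w => Ty (vl w₀) (vl w)) n : ℝ) with hA
  have hA0 : 0 ≤ A := Nat.cast_nonneg _
  -- the factor
  have hN0 : (0 : ℝ) ≤ N := Nat.cast_nonneg _
  have hM0 : (0 : ℝ) ≤ M := Nat.cast_nonneg _
  have hfac : c₁ * x / (N + 1) * (C * ((N : ℝ) + M)) ≤ c * x := by
    have h4 : c₁ * (C * (M + 1)) ≤ c := by rwa [le_div_iff₀ (by positivity)] at e3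
    have h5 : (N : ℝ) + M ≤ (M + 1) * (N + 1) := by nlinarith
    calc c₁ * x / (N + 1) * (C * ((N : ℝ) + M))
        ≤ c₁ * x / (N + 1) * (C * ((M + 1) * (N + 1))) := by
          refine mul_le_mul_of_nonneg_left (mul_le_mul_of_nonneg_left h5 hC.le) (by positivity)
      _ = c₁ * (C * (M + 1)) * x := by field_simp
      _ ≤ c * x := mul_le_mul_of_nonneg_right h4 hx0.le
  have hmain : (c₁ * x / (N + 1)) ^ N * A ≤ a (KT l) (n + b * N) := by
    rcases Nat.eq_zero_or_pos N with rfl | hNp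
    · simp only [pow_zero, one_mul] at h1 ⊢
      exact h1.trans h2
    · have hNpR : (0 : ℝ) < N := by exact_mod_cast hNp
      have hK : (0 : ℝ) < (C * ((N : ℝ) + M)) ^ N := by positivity
      refine le_of_mul_le_mul_left ?_ hK
      calc (C * ((N : ℝ) + M)) ^ N * ((c₁ * x / (N + 1)) ^ N * A)
          = (c₁ * x / (N + 1) * (C * ((N : ℝ) + M))) ^ N * A := by
            rw [mul_pow (c₁ * x / ((N : ℝ) + 1))]; ring
        _ ≤ (c * x) ^ N * A :=
          mul_le_mul_of_nonneg_right (pow_le_pow_left₀ (by positivity) hfac N) hA0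
        _ ≤ (C * ((N : ℝ) + M)) ^ N *
            a (fun w => SumsC (Ty (vl w₀)) (fun _ => vl wL) N (vl w)) (n + b * N) := h1
        _ ≤ _ := mul_le_mul_of_nonneg_left h2 hK.le
  have hlen : ((n + b * N : ℕ) : ℝ) ≤ (1 + b) * n := by
    push_cast
    have h3 : (0 : ℝ) ≤ b := Nat.cast_nonneg _
    nlinarith
  have hlen0 : (0 : ℝ) < ((n + b * N : ℕ) : ℝ) := by
    push_cast
    positivity
  unfold pq
  rw [← mul_div_assoc, div_le_div_iff₀ (by positivity) (by positivity)]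
  have hE0 : 0 ≤ (c₁ * x / (N + 1)) ^ N := by positivity
  have h6 : c₁ * (2 * (1 + b)) ≤ 1 := by rwa [le_div_iff₀ (by positivity)] at e4
  calc c₁ * (c₁ * x / (N + 1)) ^ N * (a (KT (vl w₀)) n : ℝ) * (2 * ((n + b * N : ℕ) : ℝ))
      ≤ c₁ * (c₁ * x / (N + 1)) ^ N * (2 * A) * (2 * ((1 + b) * n)) := by
        refine mul_le_mul (mul_le_mul_of_nonneg_left h3 (by positivity))
          (mul_le_mul_of_nonneg_left hlen (by norm_num)) (by positivity) (by positivity)
    _ = (c₁ * (2 * (1 + b))) * ((c₁ * x / (N + 1)) ^ N * A) * (2 * n) := by ring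
    _ ≤ 1 * (a (KT l) (n + b * N) : ℝ) * (2 * n) := by
        refine mul_le_mul_of_nonneg_right ?_ (by positivity)
        exact mul_le_mul h6 hmain (by positivity) (by norm_num)
    _ = _ := by ring

/-- the smallest class which contains `w₀` and `wL` and is closed under connected sums -/
def Gen (w₀ wL : List Dir) (w : List Dir) : Prop :=
  ∀ Q : List Dir → Prop, KClass Q → CSum Q → Q w₀ → Q wL → Q w

theorem gen_class (w₀ wL : List Dir) : KClass (Gen w₀ wL) :=
  ⟨fun w w' h h' hs hw Q hQ hc h1 h2 => hQ.same w w' h h' hs (hw Q hQ hc h1 h2),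
    fun w w' h h' hs hw Q hQ hc h1 h2 => hQ.rev w w' h h' hs (hw Q hQ hc h1 h2)⟩

theorem gen_sum (w₀ wL : List Dir) : CSum (Gen w₀ wL) :=
  fun l1 v l2 hF h h' Q hQ hc h1 h2 => hc l1 v l2 hF (h Q hQ hc h1 h2) (h' Q hQ hc h1 h2)

end X77.KL
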