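import Pool.Agent.X77.KL.Cnt

/-!
# The multiplicity of a word with many blocks
-/

set_option autoImplicit false

namespace X77.KL

open Finset Filter Topology KN KN.KQ KN.K3YMUL
open scoped Classical

variable {𝒬 : List V → Prop}

/-- a label determines its block -/
theorem sp_unique {T : ℕ} {v : ℕ → List Dir} {W : List Sz} {N : ℕ}
    (hlab : (lab W).Perm (List.range N)) {m m' i : ℕ} {d d' f f' : Dir}
    (h : (m, i, d, f) ∈ Sp T v 0 W) (h' : (m', i, d', f') ∈ Sp T v 0 W) :
    m = m' ∧ d = d' ∧ f = f' := by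
  obtain ⟨A, B, h1, h2⟩ := Sp_mem T v W 0 m i d f h
  obtain ⟨A', B', h1', h2'⟩ := Sp_mem T v W 0 m' i d' f' h'
  have hnd : (lab W).Nodup := hlab.nodup_iff.2 List.nodup_range
  have hA : i ∉ lab A := by
    rw [h1, OV.lab_append, OV.lab_bl] at hnd
    intro hi
    exact (List.nodup_append.1 hnd).2.2 i hi i List.mem_cons_self rfl
  have hA' : i ∉ lab A' := by
    rw [h1', OV.lab_append, OV.lab_bl] at hnd
    intro hi
    exact (List.nodup_append.1 hnd).2.2 i hi i List.mem_cons_self rfl
  have he := h1.symm.trans h1'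
  obtain ⟨e1, e2⟩ := KQ.K3YCNT.split_unique i A A' B B' d f d' f' hA hA' he
  subst e1 e2
  have h3 := List.append_cancel_left he
  simp only [List.cons.injEq, Sz.bl.injEq, true_and, and_true] at h3
  exact ⟨by omega, h3.1, h3.2⟩

/-- the multiplicity -/
theorem mul_bound {ks : ℕ → List V} {N M : ℕ} (hno : NoM 𝒬 ks N M) {T L B : ℕ}
    {v : ℕ → List Dir} (hv : SmB L B v) (hs : ∀ i, Same (vl (.zm :: v i)) (ks i)) {n : ℕ}
    (hn : M * (B + 2 * T) + 3 ≤ n) (w : List Dir) :
    ((VZ 𝒬 T L v N n).filter (fun W => EZ T v W = w)).card ≤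
      ((N + M) * (2 * (B + 2 * T)) * 36) ^ N := by
  have hmem : Y_mem 𝒬 := q_mem
  set D := B + 2 * T with hD
  have hD1 : 1 ≤ D := (blk_pos T (v 0)).trans (blk_le hv T 0)
  set F := (VZ 𝒬 T L v N n).filter (fun W => EZ T v W = w) with hF
  rcases F.eq_empty_or_nonempty with he | ⟨W0, hW0⟩
  · rw [he]; simp
  rw [hF, Finset.mem_filter, hmem] at hW0
  obtain ⟨⟨hl0, hn0, hV0⟩, hw0⟩ := hW0
  have hl1 : M * (B + 2 * T) + 3 ≤ W0.length := by rw [hl0]; exact hn
  -- the far positions
  set P0 : Finset ℕ := (Sp T v 0 W0).image Prod.fst with hP0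
  set S : Finset ℕ := (Finset.range (w.length + 1)).filter (fun m =>
    (∀ p ∈ P0, m + D ≤ p ∨ p + D ≤ m) ∧ ∃ W ∈ F, ∃ (i : ℕ) (d f : Dir),
      (m, i, d, f) ∈ Sp T v 0 W) with hS
  set sep : Finset ℕ → Prop := fun P => ∀ p ∈ P, ∀ q ∈ P, p ≠ q → p + D ≤ q ∨ q + D ≤ p
    with hsep
  obtain ⟨P, hP, hmax⟩ := Finset.exists_max_image (S.powerset.filter sep) Finset.card
    ⟨∅, by rw [Finset.mem_filter]; exact ⟨Finset.empty_mem_powerset _, by simp [hsep]⟩⟩
  rw [Finset.mem_filter, Finset.mem_powerset] at hP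
  obtain ⟨hPS, hPsep⟩ := hP
  have hPM : P.card < M := by
    by_contra hcon
    rw [not_lt] at hcon
    obtain ⟨P', hP'sub, hP'card⟩ := Finset.exists_subset_card_eq hcon
    set g : ℕ → ℕ := fun j => if h : j < M then (P'.orderEmbOfFin hP'card ⟨j, h⟩) else 0 with hg
    have hgm : ∀ j < M, g j ∈ P' := by
      intro j hj
      simp only [hg, dif_pos hj]
      exact Finset.orderEmbOfFin_mem P' hP'card _
    have hgi : ∀ j < M, ∀ k < M, j ≠ k → g j ≠ g k := by
      intro j hj k hk hjk he
      simp only [hg, dif_pos hj, dif_pos hk] at he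
      have := (P'.orderEmbOfFin hP'card).injective he
      rw [Fin.mk.injEq] at this
      exact hjk this
    have hch : ∀ j, ∃ (i : ℕ) (d f : Dir) (l1 l2 : List Dir), j < M →
        i < N ∧ OV.VB T L v w i d f l1 l2 ∧ l1.length = g j := by
      intro j
      by_cases hj : j < M
      · have h1 := hPS (hP'sub (hgm j hj))
        rw [hS, Finset.mem_filter] at h1
        obtain ⟨-, -, W, hW, i, d, f, hm⟩ := h1
        rw [hF, Finset.mem_filter, hmem] at hW
        obtain ⟨⟨_, hlab, hV⟩, hw⟩ := hW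
        obtain ⟨A, B', h2, h3⟩ := Sp_mem T v W 0 (g j) i d f hm
        refine ⟨i, d, f, EZ T v A, EZ T v B', fun _ => ⟨?_, ?_, by omega⟩⟩
        · have h7 := lab_mem h2
          rw [hlab.mem_iff, List.mem_range] at h7
          exact h7
        · rw [← hw]
          exact OV.vb_of hV h2
      · exact ⟨0, .xp, .xp, [], [], fun h => absurd h hj⟩
    choose σ d f l1 l2 h using hch
    refine OV.ovr (q_type OV.TT0_TC) e_bas T_Wrep_proof T_rtc_proof hno hv hs hV0 hl1 σ
      (fun j hj => (h j hj).1) d f l1 l2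
      (fun j hj => by rw [hw0]; exact (h j hj).2.1) ?_ ?_
    · intro j hj A B' i' d' f' h2
      have h1 := hPS (hP'sub (hgm j hj))
      rw [hS, Finset.mem_filter] at h1
      have h3 : (EZ T v A).length ∈ P0 := by
        rw [hP0, Finset.mem_image]
        refine ⟨(0 + (EZ T v A).length, i', d', f'), ?_, by simp⟩
        rw [h2]; exact mem_Sp T v A B' 0 i' d' f'
      rw [(h j hj).2.2]
      exact h1.2.1 _ h3
    · intro j hj k hk hjk
      rw [(h j hj).2.2, (h k hk).2.2]
      exact hPsep _ (hP'sub (hgm j hj)) _ (hP'sub (hgm k hk)) (hgi j hj k hk hjk)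
  set J : Finset (ℕ × Dir × Dir) :=
    ((P0 ∪ P).biUnion (fun q => Finset.Ico (q + 1 - D) (q + D))) ×ˢ
      (univ : Finset (Dir × Dir)) with hJ
  have hPc : (P0 ∪ P).card ≤ N + M := by
    refine (Finset.card_union_le _ _).trans (Nat.add_le_add ?_ hPM.le)
    refine Finset.card_image_le.trans ((Sp_card T v W0 0).trans ?_)
    rw [hn0.length_eq, List.length_range]
  have hJc : J.card ≤ (N + M) * (2 * D) * 36 := by
    rw [hJ, Finset.card_product]
    have e36 : (univ : Finset (Dir × Dir)).card = 36 := rfl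
    rw [e36]
    refine Nat.mul_le_mul_right _ ?_
    refine Finset.card_biUnion_le.trans ?_
    calc ∑ q ∈ P0 ∪ P, (Finset.Ico (q + 1 - D) (q + D)).card
        ≤ ∑ _q ∈ P0 ∪ P, 2 * D := by
          refine Finset.sum_le_sum fun q _ => ?_
          rw [Nat.card_Ico]
          omega
      _ = (P0 ∪ P).card * (2 * D) := by rw [Finset.sum_const, smul_eq_mul]
      _ ≤ (N + M) * (2 * D) := Nat.mul_le_mul_right _ hPc
  -- all blocks are at these positions
  have hin : ∀ W ∈ F, ∀ (m i : ℕ) (d f : Dir), (m, i, d, f) ∈ Sp T v 0 W → (m, d, f) ∈ J := by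
    intro W hW m i d f hm
    have hWF : W ∈ F := hW
    rw [hF, Finset.mem_filter, hmem] at hW
    obtain ⟨⟨_, hlab, hV⟩, hw⟩ := hW
    obtain ⟨A, B', h1, h2⟩ := Sp_mem T v W 0 m i d f hm
    rw [hJ, Finset.mem_product]
    refine ⟨?_, Finset.mem_univ _⟩
    rw [Finset.mem_biUnion]
    by_cases hnear : ∀ p ∈ P0, m + D ≤ p ∨ p + D ≤ m
    · have hmS : m ∈ S := by
        rw [hS, Finset.mem_filter, Finset.mem_range]
        refine ⟨?_, hnear, W, hWF, i, d, f, hm⟩
        have h8 := congrArg List.length hw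
        rw [h1, EZ_append, List.length_append] at h8
        omega
      by_cases hmP : m ∈ P
      · refine ⟨m, Finset.mem_union_right _ hmP, ?_⟩
        simp only [Finset.mem_Ico]
        omega
      · by_contra hcon
        have hins : insert m P ∈ S.powerset.filter sep := by
          rw [Finset.mem_filter, Finset.mem_powerset]
          refine ⟨Finset.insert_subset hmS hPS, ?_⟩
          have hmp : ∀ p ∈ P, m + D ≤ p ∨ p + D ≤ m := by
            intro p hp
            by_contra hc
            apply hcon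
            refine ⟨p, Finset.mem_union_right _ hp, ?_⟩
            simp only [Finset.mem_Ico]
            omega
          intro p hp q hq hpq
          rw [Finset.mem_insert] at hp hq
          rcases hp with rfl | hp <;> rcases hq with rfl | hq
          · exact absurd rfl hpq
          · exact hmp q hq
          · exact (hmp p hp).symm
          · exact hPsep p hp q hq hpq
        have h9 := hmax _ hins
        rw [Finset.card_insert_of_notMem hmP] at h9
        omega
    · push Not at hnear
      obtain ⟨p, hp, h3, h4⟩ := hnear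
      refine ⟨p, Finset.mem_union_left _ hp, ?_⟩
      simp only [Finset.mem_Ico]
      omega
  -- the block with a given label
  have hex : ∀ W ∈ F, ∀ i : Fin N, ∃ q : ℕ × Dir × Dir, (q.1, i.1, q.2.1, q.2.2) ∈ Sp T v 0 W := by
    intro W hW i
    rw [hF, Finset.mem_filter, hmem] at hW
    obtain ⟨⟨_, hlab, hV⟩, hw⟩ := hW
    have hi : i.1 ∈ lab W := by
      rw [hlab.mem_iff, List.mem_range]; exact i.2
    unfold lab at hi
    rw [List.mem_filterMap] at hi
    obtain ⟨s, hs1, hs2⟩ := hi
    cases s with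
    | lt e => simp at hs2
    | bl i' d f =>
      simp only [Option.some.injEq] at hs2
      obtain ⟨A, B', hAB⟩ := List.append_of_mem hs1
      refine ⟨(0 + (EZ T v A).length, d, f), ?_⟩
      rw [hAB, ← hs2]
      exact mem_Sp T v A B' 0 i' d f
  set G : List Sz → Fin N → ℕ × Dir × Dir := fun W i =>
    if h : ∃ q : ℕ × Dir × Dir, (q.1, i.1, q.2.1, q.2.2) ∈ Sp T v 0 W then h.choose
    else (0, .xp, .xp) with hG
  have hGs : ∀ W ∈ F, ∀ i : Fin N, ((G W i).1, i.1, (G W i).2.1, (G W i).2.2) ∈ Sp T v 0 W := by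
    intro W hW i
    have h := hex W hW i
    simp only [hG, dif_pos h]
    exact h.choose_spec
  have hle : F.card ≤ (Fintype.piFinset (fun _ : Fin N => J)).card := by
    refine Finset.card_le_card_of_injOn G ?_ ?_
    · intro W hW
      rw [Finset.mem_coe, Fintype.mem_piFinset]
      intro i
      exact hin W hW _ _ _ _ (hGs W hW i)
    · intro W hW W' hW' he
      have hW1 : W ∈ F := hW
      have hW1' : W' ∈ F := hW'
      rw [Finset.mem_coe, hF, Finset.mem_filter, hmem] at hW hW'
      refine inj T v W W' 0 (by rw [hW.2, hW'.2]) ?_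
      have key : ∀ X Y : List Sz, X ∈ F → Y ∈ F → (lab X).Perm (List.range N) → G X = G Y →
          ∀ q, q ∈ Sp T v 0 X → q ∈ Sp T v 0 Y := by
        rintro X Y hX hY hlabX hXY ⟨m, i, d, f⟩ hq
        have hi : i < N := by
          obtain ⟨A, B', h1, -⟩ := Sp_mem T v X 0 m i d f hq
          have h7 := lab_mem h1
          rw [hlabX.mem_iff, List.mem_range] at h7
          exact h7
        have h1 := hGs X hX ⟨i, hi⟩
        have h2 := hGs Y hY ⟨i, hi⟩
        obtain ⟨e1, e2, e3⟩ := sp_unique hlabX hq h1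
        rw [e1, e2, e3, hXY]
        exact h2
      ext q
      exact ⟨key W W' hW1 hW1' hW.1.2.1 he q, key W' W hW1' hW1 hW'.1.2.1 he.symm q⟩
  refine hle.trans ?_
  rw [Fintype.card_piFinset, Finset.prod_const, Finset.card_univ, Fintype.card_fin]
  exact Nat.pow_le_pow_left hJc N

end X77.KL
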