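import Pool.Agent.X77.KL.Core

/-!
# Closed classes: few polygons with few summands
-/

set_option autoImplicit false

namespace X77.KL

open Finset Filter Topology KN KN.KQ
open scoped Classical

/-- `w` is a connected sum of some polygon and `m` polygons of the type of `wL` -/
def Has (wL : List Dir) (m : ℕ) (w : List Dir) : Prop :=
  SumsC (fun _ => True) (fun _ => vl wL) m (vl w)

/-- In a class closed under connected sums almost all polygons have many summands. -/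
theorem stretched {Q : List Dir → Prop} (hQ : KClass Q) (hc : CSum Q) {wL : List Dir}
    (hL : SAP wL) (hLQ : Q wL) : ∃ (ε : ℝ) (n0 : ℕ), 0 < ε ∧ ∀ n m : ℕ, n0 ≤ n →
      (m : ℝ) ≤ ε * (n : ℝ) ^ (2 / 3 : ℝ) →
      (a (fun w => Q w ∧ ¬ Has wL m w) n : ℝ) ≤
        Real.exp (-(ε * (n : ℝ) ^ (2 / 3 : ℝ))) * gr Q ^ n := by
  have hne : ∃ w, SAP w ∧ Q w := ⟨wL, hL, hLQ⟩
  obtain ⟨C2, hC2, hup⟩ := upper hQ hc hne
  obtain ⟨c, ε, C, b, n1, hc0, hε, hC, -, h⟩ := core (vl wL) ⟨wL, hL, Same.refl _⟩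
  have hg : 1 < gr Q := by
    have := (gr_bounds Q hQ hne).1
    linarith
  have hgb : 0 < gr Q ^ b := pow_pos (by linarith) b
  -- the small constant
  set ε₁ : ℝ := min (min ε 1) (min (c * Real.exp (-2) / (2 * C * gr Q ^ b)) (1 / (n1 + 1))) with hε₁
  have hε1 : 0 < ε₁ := by
    rw [hε₁]
    refine lt_min (lt_min hε one_pos) (lt_min ?_ (by positivity))
    have := Real.exp_pos (-2)
    positivity
  have e1 : ε₁ ≤ ε := (min_le_left _ _).trans (min_le_left _ _)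
  have e2 : ε₁ ≤ 1 := (min_le_left _ _).trans (min_le_right _ _)
  have e3 : ε₁ ≤ c * Real.exp (-2) / (2 * C * gr Q ^ b) := (min_le_right _ _).trans (min_le_left _ _)
  -- large `n`
  have ev1 := exp_beats (C2 * (1 + b) * Real.exp 2) ε₁ hε1
  have ev2 : ∀ᶠ n : ℕ in atTop, ((n1 : ℝ) + 1) * ((n : ℝ) ^ (2 / 3 : ℝ) + 1) ≤ n := by
    have ht : Tendsto (fun n : ℕ => (n : ℝ) ^ (1 / 3 : ℝ)) atTop atTop :=
      (tendsto_rpow_atTop (by norm_num)).comp tendsto_natCast_atTop_atTop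
    filter_upwards [ht.eventually_ge_atTop (2 * ((n1 : ℝ) + 1)), eventually_gt_atTop 0] with n h1 h2
    have hn0 : (0 : ℝ) < n := by exact_mod_cast h2
    have hn1 : (1 : ℝ) ≤ n := by exact_mod_cast h2
    have h3 : (n : ℝ) = (n : ℝ) ^ (1 / 3 : ℝ) * (n : ℝ) ^ (2 / 3 : ℝ) := by
      rw [← Real.rpow_add hn0]; norm_num
    have h4 : (1 : ℝ) ≤ (n : ℝ) ^ (2 / 3 : ℝ) := Real.one_le_rpow hn1 (by norm_num)
    have h5 : 2 * ((n1 : ℝ) + 1) * (n : ℝ) ^ (2 / 3 : ℝ) ≤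
        (n : ℝ) ^ (1 / 3 : ℝ) * (n : ℝ) ^ (2 / 3 : ℝ) :=
      mul_le_mul_of_nonneg_right h1 (by positivity)
    rw [← h3] at h5
    have h6 : (0 : ℝ) ≤ (n1 : ℝ) + 1 := by positivity
    nlinarith
  obtain ⟨n0, hn0⟩ := eventually_atTop.1 (ev1.and (ev2.and (eventually_ge_atTop 1)))
  refine ⟨ε₁, n0, hε1, fun n m hn hm => ?_⟩
  obtain ⟨f1, f2, f3⟩ := hn0 n hn
  have hnR : (0 : ℝ) < n := by exact_mod_cast f3
  have hn1R : (1 : ℝ) ≤ n := by exact_mod_cast f3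
  set x : ℝ := (n : ℝ) ^ (2 / 3 : ℝ) with hx
  have hx1 : 1 ≤ x := Real.one_le_rpow hn1R (by norm_num)
  have hx0 : 0 < x := by linarith
  set N : ℕ := ⌊ε₁ * x⌋₊ with hN
  have hNa : (N : ℝ) ≤ ε₁ * x := Nat.floor_le (by positivity)
  have hNb : ε₁ * x < N + 1 := Nat.lt_floor_add_one _
  have hNε : (N : ℝ) ≤ ε * x := hNa.trans (mul_le_mul_of_nonneg_right e1 hx0.le)
  have hmx : (m : ℝ) ≤ x := hm.trans (by nlinarith)
  have hcond : n1 * (m + 1) ≤ n := by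
    have h1 : ((n1 : ℝ)) * (m + 1) ≤ n := by
      refine le_trans ?_ f2
      have h2 : (0 : ℝ) ≤ n1 := Nat.cast_nonneg _
      have h3 : (0 : ℝ) ≤ m := Nat.cast_nonneg _
      nlinarith
    exact_mod_cast h1
  -- the class
  set 𝒬 : List V → Prop := fun l => KC Q l ∧ ¬ SumsC (fun _ => True) (fun _ => vl wL) m l with h𝒬
  have hTC : TC 𝒬 := by
    rintro l l' hs ⟨h1, h2⟩
    refine ⟨kc_TC Q l l' hs h1, fun h3 => h2 ?_⟩
    exact K3YTYPE.sums_same OV.TT0_TC h3 hs.symm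
  have h1 := h 𝒬 hTC m (fun l hl => hl.2) n N hcond hNε
  have hA : (a (fun w => Q w ∧ ¬ Has wL m w) n : ℝ) ≤ a (fun w => 𝒬 (vl w)) n := by
    have : a (fun w => Q w ∧ ¬ Has wL m w) n ≤ a (fun w => 𝒬 (vl w)) n := by
      unfold a
      apply Finset.card_le_card
      intro w hw
      rw [mem_K] at hw ⊢
      exact ⟨hw.1, hw.2.1, (kc_iff hQ hw.2.1).2 hw.2.2.1, hw.2.2.2⟩
    exact_mod_cast this
  refine hA.trans ?_
  have hB : (a (fun w => SumsC 𝒬 (fun _ => vl wL) N (vl w)) (n + b * N) : ℝ) ≤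
      a Q (n + b * N) := by
    have : a (fun w => SumsC 𝒬 (fun _ => vl wL) N (vl w)) (n + b * N) ≤ a Q (n + b * N) := by
      unfold a
      apply Finset.card_le_card
      intro w hw
      rw [mem_K] at hw ⊢
      refine ⟨hw.1, hw.2.1, (kc_iff hQ hw.2.1).1 ?_⟩
      exact sums_closed hQ hc ⟨wL, hL, hLQ, Same.refl _⟩ N _
        (sums_mono (fun l hl => hl.1) _ N _ hw.2.2)
    exact_mod_cast this
  have hU := hup (n + b * N) (by omega)
  -- the length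
  have hNn : (N : ℝ) ≤ n := by
    refine hNa.trans ?_
    have h3 : x ≤ n := by
      have h2 : (0 : ℝ) ≤ n1 := Nat.cast_nonneg _
      nlinarith
    nlinarith
  have hlen : ((n + b * N : ℕ) : ℝ) ≤ (1 + b) * n := by
    push_cast
    have h3 : (0 : ℝ) ≤ b := Nat.cast_nonneg _
    nlinarith
  have hgn : 0 < gr Q ^ n := pow_pos (by linarith) n
  have hU2 : (a Q (n + b * N) : ℝ) ≤ C2 * ((1 + b) * n) * (gr Q ^ n * (gr Q ^ b) ^ N) := by
    refine hU.trans ?_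
    have e : gr Q ^ (n + b * N) = gr Q ^ n * (gr Q ^ b) ^ N := by rw [pow_add, pow_mul]
    rw [e]
    exact mul_le_mul_of_nonneg_right (mul_le_mul_of_nonneg_left hlen hC2.le) (by positivity)
  have hNm : C * ((N : ℝ) + m) * gr Q ^ b ≤ c * x * Real.exp (-2) := by
    have h3 : (N : ℝ) + m ≤ 2 * (ε₁ * x) := by linarith
    have h4 : ε₁ * (2 * C * gr Q ^ b) ≤ c * Real.exp (-2) := by
      rwa [le_div_iff₀ (by positivity)] at e3
    calc C * ((N : ℝ) + m) * gr Q ^ b ≤ C * (2 * (ε₁ * x)) * gr Q ^ b :=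
          mul_le_mul_of_nonneg_right (mul_le_mul_of_nonneg_left h3 hC.le) hgb.le
      _ = ε₁ * (2 * C * gr Q ^ b) * x := by ring
      _ ≤ c * Real.exp (-2) * x := mul_le_mul_of_nonneg_right h4 hx0.le
      _ = _ := by ring
  have hpow : (C * ((N : ℝ) + m)) ^ N * (gr Q ^ b) ^ N ≤ (c * x) ^ N * Real.exp (-2) ^ N := by
    rw [← mul_pow, ← mul_pow]
    refine pow_le_pow_left₀ (by positivity) hNm N
  have hcx : 0 < (c * x) ^ N := by positivity
  set A : ℝ := (a (fun w => 𝒬 (vl w)) n : ℝ) with hAdef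
  have h2 : (c * x) ^ N * A ≤ (c * x) ^ N *
      (Real.exp (-2) ^ N * (C2 * (1 + b) * n) * gr Q ^ n) := by
    calc (c * x) ^ N * A ≤ (C * ((N : ℝ) + m)) ^ N *
          a (fun w => SumsC 𝒬 (fun _ => vl wL) N (vl w)) (n + b * N) := h1
      _ ≤ (C * ((N : ℝ) + m)) ^ N * (C2 * ((1 + b) * n) * (gr Q ^ n * (gr Q ^ b) ^ N)) :=
        mul_le_mul_of_nonneg_left (hB.trans hU2) (by positivity)
      _ = ((C * ((N : ℝ) + m)) ^ N * (gr Q ^ b) ^ N) * (C2 * (1 + b) * n * gr Q ^ n) := by ring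
      _ ≤ ((c * x) ^ N * Real.exp (-2) ^ N) * (C2 * (1 + b) * n * gr Q ^ n) :=
        mul_le_mul_of_nonneg_right hpow (by positivity)
      _ = _ := by ring
  have h3 := le_of_mul_le_mul_left h2 hcx
  refine h3.trans (mul_le_mul_of_nonneg_right ?_ hgn.le)
  have h4 : Real.exp (-2) ^ N ≤ Real.exp 2 * Real.exp (-(2 * (ε₁ * x))) := by
    rw [← Real.exp_nat_mul, ← Real.exp_add]
    refine Real.exp_le_exp.2 ?_
    linarith
  calc Real.exp (-2) ^ N * (C2 * (1 + b) * n)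
      ≤ (Real.exp 2 * Real.exp (-(2 * (ε₁ * x)))) * (C2 * (1 + b) * n) :=
        mul_le_mul_of_nonneg_right h4 (by positivity)
    _ = (C2 * (1 + b) * Real.exp 2 * n) * Real.exp (-(2 * (ε₁ * x))) := by ring
    _ ≤ Real.exp (ε₁ * x) * Real.exp (-(2 * (ε₁ * x))) :=
        mul_le_mul_of_nonneg_right f1 (Real.exp_pos _).le
    _ = Real.exp (-(ε₁ * x)) := by
      rw [← Real.exp_add]; congr 1; ring

/-- a bound for a single knot type -/
theorem single {Q : List Dir → Prop} (hQ : KClass Q) (hc : CSum Q) {w₀ wL : List Dir}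
    (h₀ : SAP w₀) (hQ₀ : Q w₀) (hL : SAP wL) (hLQ : Q wL) (hF : FNAG (vl wL)) :
    ∃ ε : ℝ, 0 < ε ∧ ∀ᶠ n : ℕ in atTop, pq (KT (vl w₀)) n ≤
      Real.exp (-(ε * (n : ℝ) ^ (2 / 3 : ℝ))) * gr Q ^ n := by
  obtain ⟨ε, n0, hε, h⟩ := stretched hQ hc hL hLQ
  obtain ⟨M, hM⟩ := noM_finite h₀ (fun _ => vl wL) 1 (fun _ _ => hF)
  refine ⟨ε, hε, ?_⟩
  have ht : Tendsto (fun n : ℕ => ε * (n : ℝ) ^ (2 / 3 : ℝ)) atTop atTop :=
    ((tendsto_rpow_atTop (by norm_num)).comp tendsto_natCast_atTop_atTop).const_mul_atTop hε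
  filter_upwards [ht.eventually_ge_atTop (M : ℝ), eventually_ge_atTop n0, eventually_ge_atTop 1]
    with n h1 h2 h3
  have h4 := h n M h2 h1
  have hn0 : (0 : ℝ) < n := by exact_mod_cast h3
  have hn1 : (1 : ℝ) ≤ n := by exact_mod_cast h3
  have h5 : (a (KT (vl w₀)) n : ℝ) ≤ 2 * a (fun w => Ty (vl w₀) (vl w)) n := by
    exact_mod_cast a_le_two (vl w₀) n
  have h6 : (a (fun w => Ty (vl w₀) (vl w)) n : ℝ) ≤ a (fun w => Q w ∧ ¬ Has wL M w) n := by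
    have : a (fun w => Ty (vl w₀) (vl w)) n ≤ a (fun w => Q w ∧ ¬ Has wL M w) n := by
      unfold a
      apply Finset.card_le_card
      intro w hw
      rw [mem_K] at hw ⊢
      refine ⟨hw.1, hw.2.1, hQ.same w₀ w h₀ hw.2.1 (Same.symm hw.2.2) hQ₀, ?_⟩
      exact hM (fun _ => 0) (fun _ _ => one_pos) _ hw.2.2
    exact_mod_cast this
  unfold pq
  rw [div_le_iff₀ (by positivity)]
  set E := Real.exp (-(ε * (n : ℝ) ^ (2 / 3 : ℝ))) * gr Q ^ n with hE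
  have hE0 : 0 ≤ E := le_trans (Nat.cast_nonneg _) h4
  nlinarith

/-- a lower bound for one knot type gives a strict inequality for the growth rates -/
theorem strict {Q : List Dir → Prop} (hQ : KClass Q) (hc : CSum Q) {w₀ wL : List Dir}
    (h₀ : SAP w₀) (hQ₀ : Q w₀) (hL : SAP wL) (hLQ : Q wL) (hF : FNAG (vl wL))
    (h : ∀ ε : ℝ, 0 < ε → ∃ᶠ n : ℕ in atTop,
      Real.exp (-(ε * (n : ℝ) ^ (2 / 3 : ℝ))) * gr (KT (vl w₀)) ^ n ≤ pq (KT (vl w₀)) n) :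
    gr (KT (vl w₀)) < gr Q := by
  obtain ⟨ε, hε, h1⟩ := single hQ hc h₀ hQ₀ hL hLQ hF
  obtain ⟨n, h2, h3, h4⟩ := ((h (ε / 2) (by positivity)).and_eventually
    (h1.and (eventually_ge_atTop 1))).exists
  have hn0 : (0 : ℝ) < n := by exact_mod_cast h4
  have hg : 1 < gr Q := by
    have := (gr_bounds Q hQ ⟨w₀, h₀, hQ₀⟩).1
    linarith
  have h5 := h2.trans h3
  have hx : 0 < (n : ℝ) ^ (2 / 3 : ℝ) := Real.rpow_pos_of_pos hn0 _
  have h6 : Real.exp (-(ε * (n : ℝ) ^ (2 / 3 : ℝ))) <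
      Real.exp (-(ε / 2 * (n : ℝ) ^ (2 / 3 : ℝ))) := by
    refine Real.exp_lt_exp.2 ?_
    have : 0 < ε / 2 * (n : ℝ) ^ (2 / 3 : ℝ) := by positivity
    linarith
  have hgn : 0 < gr Q ^ n := pow_pos (by linarith) n
  have h7 : Real.exp (-(ε / 2 * (n : ℝ) ^ (2 / 3 : ℝ))) * gr (KT (vl w₀)) ^ n <
      Real.exp (-(ε / 2 * (n : ℝ) ^ (2 / 3 : ℝ))) * gr Q ^ n :=
    h5.trans_lt (mul_lt_mul_of_pos_right h6 hgn)
  have h8 : gr (KT (vl w₀)) ^ n < gr Q ^ n := lt_of_mul_lt_mul_left h7 (Real.exp_pos _).le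
  exact lt_of_pow_lt_pow_left₀ n (by linarith) h8

end X77.KL
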